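import Pool.Agent.Y274.IH.Defs
set_option autoImplicit false
set_option linter.unusedSectionVars false
set_option linter.unusedVariables false
open Metric Set Filter Topology

namespace Pool.Agent.Y274.IH

variable {dm : ℕ}

/-- the representative of a point of the circle in `(-1/2, 1/2]` -/
noncomputable def sm (z : S1) : ℝ := (AddCircle.equivIoc (1:ℝ) (-1/2) z : ℝ)

theorem sm_coe (z : S1) : ((sm z : ℝ) : S1) = z := AddCircle.coe_equivIoc

theorem sm_of_real {t : ℝ} (ht : |t| < 1 / 2) : sm (t : S1) = t := by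
  rw [abs_lt] at ht
  unfold sm
  rw [AddCircle.equivIoc_coe_of_mem]
  constructor <;> linarith [ht.1, ht.2]

theorem sm_bd (z : S1) : |sm z| ≤ 1 / 2 := by
  have h := (AddCircle.equivIoc (1:ℝ) (-1/2) z).2
  rw [abs_le]
  unfold sm
  constructor
  · have := h.1; linarith
  · have := h.2; linarith

theorem norm_eq_sm (z : S1) : ‖z‖ = |sm z| := by
  conv_lhs => rw [← sm_coe z]
  rw [AddCircle.norm_coe_eq_abs_iff (1:ℝ) (by norm_num)]
  simpa using sm_bd z

theorem sm_zero : sm 0 = 0 := by
  have := sm_of_real (t := 0) (by norm_num)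
  simpa using this

theorem sm_add {a b : S1} (h : ‖a‖ + ‖b‖ < 1 / 2) : sm (a + b) = sm a + sm b := by
  rw [norm_eq_sm, norm_eq_sm] at h
  have h1 : a + b = ((sm a + sm b : ℝ) : S1) := by
    rw [AddCircle.coe_add, sm_coe, sm_coe]
  conv_lhs => rw [h1]
  exact sm_of_real ((abs_add_le _ _).trans_lt h)

theorem sm_neg {a : S1} (h : ‖a‖ < 1 / 2) : sm (-a) = - sm a := by
  rw [norm_eq_sm] at h
  have h1 : -a = ((- sm a : ℝ) : S1) := by
    rw [AddCircle.coe_neg, sm_coe]
  conv_lhs => rw [h1]
  exact sm_of_real (by rwa [abs_neg])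

theorem sm_cont {a : S1} (h : ‖a‖ < 1 / 2) : ContinuousAt sm a := by
  have h1 : a ≠ ((-1/2 : ℝ) : S1) := by
    intro h2
    rw [h2, AddCircle.norm_coe_eq_abs_iff (1:ℝ) (by norm_num) |>.2 (by norm_num [abs_of_neg])] at h
    norm_num [abs_of_neg] at h
  exact continuous_subtype_val.continuousAt.comp (AddCircle.continuousAt_equivIoc (1:ℝ) (-1/2) h1)

theorem sm_eq_of_lift {t : ℝ} {a : S1} (h : (t : S1) = a) (ht : |t| < 1 / 2) : sm a = t := by
  rw [← h]; exact sm_of_real ht

/-- A homotopy relative to `S` produces a real lift of the difference vanishing on `S`. -/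
theorem exists_lift_of_homotopicRel {X : Type*} [TopologicalSpace X] {u v : C(X, S1)} {S : Set X}
    (h : ContinuousMap.HomotopicRel u v S) :
    ∃ w : X → ℝ, Continuous w ∧ (∀ x, ((w x : ℝ) : S1) = v x - u x) ∧ ∀ x ∈ S, w x = 0 := by
  obtain ⟨H⟩ := h
  let G : C(unitInterval × X, S1) :=
    ⟨fun p => H p - u p.2, by fun_prop⟩
  have cov : IsCoveringMap ((↑) : ℝ → S1) := AddCircle.isCoveringMap_coe (1:ℝ)
  let f : C(X, ℝ) := ContinuousMap.const X 0
  have H0 : ∀ a, G (0, a) = ((f a : ℝ) : S1) := by
    intro a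
    show H (0, a) - u a = _
    simp [f]
  let L := cov.liftHomotopy G f H0
  have hL : ((↑) : ℝ → S1) ∘ L = G := cov.liftHomotopy_lifts G f H0
  refine ⟨fun x => L (1, x), by fun_prop, ?_, ?_⟩
  · intro x
    have := congrFun hL (1, x)
    simp only [Function.comp] at this
    rw [this]
    show H (1, x) - u x = _
    simp
  · intro x hx
    -- the lifted path is constant
    have h1 : ∀ t : unitInterval, G (t, x) = 0 := by
      intro t
      show H (t, x) - u x = 0
      rw [H.eq_fst t hx, sub_self]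
    have hcont : Continuous fun t : unitInterval => L (t, x) := by fun_prop
    let P : C(unitInterval, ℝ) := ⟨fun t : unitInterval => L (t, x), hcont⟩
    have h2 : P = cov.liftPath (ContinuousMap.const unitInterval (((0 : ℝ)) : S1)) 0 rfl := by
      refine (cov.eq_liftPath_iff' (γ := ContinuousMap.const unitInterval (((0 : ℝ)) : S1))
        (e := (0:ℝ)) (γ_0 := rfl)).2 ⟨?_, ?_⟩
      · ext t
        have := congrFun hL (t, x)
        simp only [Function.comp] at this
        show ((L (t, x) : ℝ) : S1) = ((0 : ℝ) : S1)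
        rw [this, h1]
        rfl
      · show L (0, x) = 0
        exact cov.liftHomotopy_zero G f H0 x
    have h3 : cov.liftPath (ContinuousMap.const unitInterval (((0 : ℝ)) : S1)) (0:ℝ) rfl =
        ContinuousMap.const _ 0 := cov.liftPath_const rfl
    rw [h3] at h2
    have := DFunLike.congr_fun h2 1
    exact this

end Pool.Agent.Y274.IH
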