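import Pool.Agent.Y274.IH.Rad
set_option autoImplicit false
set_option linter.unusedSectionVars false
set_option linter.unusedVariables false
open MeasureTheory Metric Set Filter Topology Function
open scoped InnerProductSpace

namespace Pool.Agent.Y274.IH

variable {dm : ℕ}

theorem inner_grad (k : (E dm) → ℝ) (y e : (E dm)) : ⟪gradient k y, e⟫_ℝ = fderiv ℝ k y e := by
  rw [gradient, InnerProductSpace.toDual_symm_apply]

theorem continuous_grad {k : (E dm) → ℝ} (hk : ContDiff ℝ Sm k) : Continuous (gradient k) := by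
  unfold gradient
  exact (InnerProductSpace.toDual ℝ (E dm)).symm.continuous.comp (hk.continuous_fderiv (by simp))

theorem WG.smooth {k : (E dm) → ℝ} (hk : ContDiff ℝ Sm k) (hkc : HasCompactSupport k) :
    WG k (gradient k) := by
  intro ψ hψ hψc e
  have hψ1 : Continuous (fderiv ℝ ψ) := hψ.continuous_fderiv (by simp)
  have hk1 : Continuous (fderiv ℝ k) := hk.continuous_fderiv (by simp)
  rw [integral_mul_fderiv_eq_neg_fderiv_mul_of_integrable (𝕜 := ℝ)
    (((hk1.clm_apply continuous_const).mul hψ.continuous).integrable_of_hasCompactSupport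
      hψc.mul_left)
    ((hk.continuous.mul (hψ1.clm_apply continuous_const)).integrable_of_hasCompactSupport
      hkc.mul_right)
    ((hk.continuous.mul hψ.continuous).integrable_of_hasCompactSupport hψc.mul_left)
    (fun x _ => (hk.differentiable (by simp)) x) (fun x _ => (hψ.differentiable (by simp)) x)]
  simp only [inner_grad]

theorem WG.sub {f₁ f₂ : (E dm) → ℝ} {h₁ h₂ : (E dm) → (E dm)} (hf₁ : Continuous f₁) (hf₂ : Continuous f₂)
    (hh₁ : Integrable h₁) (hh₂ : Integrable h₂) (w₁ : WG f₁ h₁) (w₂ : WG f₂ h₂) :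
    WG (fun y => f₁ y - f₂ y) (fun y => h₁ y - h₂ y) := by
  intro ψ hψ hψc e
  have hψ1 : Continuous (fderiv ℝ ψ) := hψ.continuous_fderiv (by simp)
  have hψe : HasCompactSupport (fun y => fderiv ℝ ψ y e) := hψc.fderiv_apply ℝ e
  have i1 : Integrable (fun y => f₁ y * fderiv ℝ ψ y e) :=
    (hf₁.mul (hψ1.clm_apply continuous_const)).integrable_of_hasCompactSupport hψe.mul_left
  have i2 : Integrable (fun y => f₂ y * fderiv ℝ ψ y e) :=
    (hf₂.mul (hψ1.clm_apply continuous_const)).integrable_of_hasCompactSupport hψe.mul_left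
  obtain ⟨C, hC⟩ := hψc.exists_bound_of_continuous hψ.continuous
  have i3 : ∀ h : (E dm) → (E dm), Integrable h → Integrable (fun y => ⟪h y, e⟫_ℝ * ψ y) := by
    intro h hh
    have := (hh.inner_const (𝕜 := ℝ) e).bdd_mul (c := C) hψ.continuous.aestronglyMeasurable
      (Filter.Eventually.of_forall hC)
    simpa only [mul_comm] using this
  simp only [sub_mul, inner_sub_left]
  rw [integral_sub i1 i2, integral_sub (i3 _ hh₁) (i3 _ hh₂), w₁ ψ hψ hψc e, w₂ ψ hψ hψc e]
  ring

/-- `g` is the weak gradient of `U` on the ball `B(c,R)` -/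
def LW (c : (E dm)) (R : ℝ) (U : (E dm) → ℝ) (g : (E dm) → (E dm)) : Prop :=
  ∀ ψ : (E dm) → ℝ, ContDiff ℝ Sm ψ → HasCompactSupport ψ → tsupport ψ ⊆ ball c R →
    ∀ e : (E dm), ∫ y, U y * fderiv ℝ ψ y e = - ∫ y, ⟪g y, e⟫_ℝ * ψ y

theorem integrable_cut {c : (E dm)} {R : ℝ} {g : (E dm) → (E dm)} (hg : IntegrableOn g (ball c R))
    {χ : (E dm) → ℝ} (hχ : Continuous χ) (hχc : HasCompactSupport χ) (hs : tsupport χ ⊆ ball c R) :
    Integrable (fun y => χ y • g y) := by
  obtain ⟨C, hC⟩ := hχc.exists_bound_of_continuous hχ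
  have h1 : Integrable ((ball c R).indicator g) := (integrable_indicator_iff measurableSet_ball).2 hg
  have h2 : Integrable (fun y => χ y • (ball c R).indicator g y) :=
    h1.bdd_smul C hχ.aestronglyMeasurable (Filter.Eventually.of_forall hC)
  refine h2.congr (Filter.Eventually.of_forall fun y => ?_)
  by_cases hy : y ∈ ball c R
  · simp only [Set.indicator_of_mem hy]
  · have : χ y = 0 := image_eq_zero_of_notMem_tsupport fun h => hy (hs h)
    simp only [this, zero_smul]

theorem WG.cut {c : (E dm)} {R : ℝ} {U : (E dm) → ℝ} {g : (E dm) → (E dm)} (hU : ContinuousOn U (ball c R))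
    (hg : IntegrableOn g (ball c R)) (hw : LW c R U g) {χ : (E dm) → ℝ} (hχ : ContDiff ℝ Sm χ)
    (hχc : HasCompactSupport χ) (hs : tsupport χ ⊆ ball c R) :
    WG (fun y => χ y * U y) (fun y => χ y • g y + U y • gradient χ y) := by
  intro ψ hψ hψc e
  have hψ1 : Continuous (fderiv ℝ ψ) := hψ.continuous_fderiv (by simp)
  have hχ1 : Continuous (fderiv ℝ χ) := hχ.continuous_fderiv (by simp)
  have h1 := hw (fun y => χ y * ψ y) (hχ.mul hψ) (hψc.mul_left)
    ((closure_mono (Function.support_mul_subset_left _ _)).trans hs) e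
  have hd : ∀ y, fderiv ℝ (fun y => χ y * ψ y) y e = χ y * fderiv ℝ ψ y e + ψ y * fderiv ℝ χ y e := by
    intro y
    have h2 : HasFDerivAt χ (fderiv ℝ χ y) y := ((hχ.differentiable (by simp)) y).hasFDerivAt
    have h3 : HasFDerivAt ψ (fderiv ℝ ψ y) y := ((hψ.differentiable (by simp)) y).hasFDerivAt
    have h4 : fderiv ℝ (fun y => χ y * ψ y) y = χ y • fderiv ℝ ψ y + ψ y • fderiv ℝ χ y :=
      (h2.mul h3).fderiv
    rw [h4]
    rfl
  have hse : tsupport (fun y => fderiv ℝ χ y e) ⊆ ball c R :=
    (tsupport_fderiv_apply_subset ℝ e).trans hs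
  -- integrability
  have c1 : Continuous (fun y => χ y * U y) := continuous_cut isOpen_ball hχ.continuous hs hU
  have c2 : Continuous (fun y => fderiv ℝ χ y e * U y) :=
    continuous_cut isOpen_ball (hχ1.clm_apply continuous_const) hse hU
  have i1 : Integrable (fun y => χ y * U y * fderiv ℝ ψ y e) :=
    (c1.mul (hψ1.clm_apply continuous_const)).integrable_of_hasCompactSupport
      ((hψc.fderiv_apply ℝ e).mul_left)
  have i2 : Integrable (fun y => fderiv ℝ χ y e * U y * ψ y) :=
    (c2.mul hψ.continuous).integrable_of_hasCompactSupport hψc.mul_left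
  have e1 : ∫ y, U y * fderiv ℝ (fun y => χ y * ψ y) y e =
      (∫ y, χ y * U y * fderiv ℝ ψ y e) + ∫ y, fderiv ℝ χ y e * U y * ψ y := by
    rw [← integral_add i1 i2]
    apply integral_congr_ae
    refine Filter.Eventually.of_forall fun y => ?_
    simp only [hd]
    ring
  obtain ⟨C, hC⟩ := hψc.exists_bound_of_continuous hψ.continuous
  have i3 : Integrable (fun y => ⟪g y, e⟫_ℝ * (χ y * ψ y)) := by
    have h2 := ((integrable_cut hg hχ.continuous hχc hs).inner_const (𝕜 := ℝ) e).bdd_mul (c := C)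
      hψ.continuous.aestronglyMeasurable (Filter.Eventually.of_forall hC)
    refine h2.congr (Filter.Eventually.of_forall fun y => ?_)
    simp only [real_inner_smul_left]
    ring
  have e2 : ∫ y, ⟪χ y • g y + U y • gradient χ y, e⟫_ℝ * ψ y =
      (∫ y, ⟪g y, e⟫_ℝ * (χ y * ψ y)) + ∫ y, fderiv ℝ χ y e * U y * ψ y := by
    rw [← integral_add i3 i2]
    apply integral_congr_ae
    refine Filter.Eventually.of_forall fun y => ?_
    simp only [inner_add_left, real_inner_smul_left, inner_grad]
    ring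
  rw [e2]
  rw [e1] at h1
  linarith

end Pool.Agent.Y274.IH
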