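import Mathlib
set_option autoImplicit false
open MeasureTheory Metric Set Filter Topology
open scoped InnerProductSpace

namespace Pool.Agent.Y274.IH

/-- Euclidean space -/
abbrev E (dm : ℕ) : Type := EuclideanSpace ℝ (Fin dm)

variable {dm : ℕ}

/-- the circle `ℝ / ℤ` -/
abbrev S1 : Type := AddCircle (1 : ℝ)

/-- An annular region: a bounded domain whose closure is homeomorphic to the closed annulus
`{1 ≤ |x| ≤ 2}`. -/
def IsAnnular (Ω : Set (E 2)) : Prop :=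
  IsOpen Ω ∧ IsConnected Ω ∧ Bornology.IsBounded Ω ∧
    Nonempty (closure Ω ≃ₜ {x : E 2 // 1 ≤ ‖x‖ ∧ ‖x‖ ≤ 2})

/-- `g` is the weak gradient on `Ω` of the circle valued map `u`: on every ball contained in `Ω` it
is the weak gradient of every continuous real lift of `u` on this ball. -/
def IsWeakGrad (Ω : Set (E dm)) (u : closure Ω → S1) (g : (E dm) → (E dm)) : Prop :=
  ∀ (c : (E dm)) (r : ℝ) (hB : ball c r ⊆ Ω) (v : (E dm) → ℝ), ContinuousOn v (ball c r) →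
    (∀ (y : (E dm)) (hy : y ∈ ball c r), ((v y : ℝ) : S1) = u ⟨y, subset_closure (hB hy)⟩) →
    ∀ ψ : (E dm) → ℝ, ContDiff ℝ ((⊤ : ℕ∞) : WithTop ℕ∞) ψ → HasCompactSupport ψ →
      tsupport ψ ⊆ ball c r →
      ∀ e : (E dm), ∫ y, v y * fderiv ℝ ψ y e = - ∫ y, ⟪g y, e⟫_ℝ * ψ y

/-- `u` belongs to the class `C_p(u₀)` with gradient `g`: `u` is continuous on the closure of `Ω`,
homotopic to `u₀` relative to the boundary (in particular `u = u₀` there), and of class `W^{1,p}`. -/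
def InClass (Ω : Set (E dm)) (u₀ : C(closure Ω, S1)) (p : ℝ) (u : C(closure Ω, S1)) (g : (E dm) → (E dm)) :
    Prop :=
  ContinuousMap.HomotopicRel u u₀ {x : closure Ω | (x : (E dm)) ∈ frontier Ω} ∧
    MemLp g (ENNReal.ofReal p) (volume.restrict Ω) ∧ IsWeakGrad Ω u g

/-- `u` minimises `∫_Ω |du|^p` in the class `C_p(u₀)`. -/
def IsMinimizer (Ω : Set (E dm)) (u₀ : C(closure Ω, S1)) (p : ℝ) (u : C(closure Ω, S1)) : Prop :=
  ∃ g : (E dm) → (E dm), InClass Ω u₀ p u g ∧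
    ∀ (u' : C(closure Ω, S1)) (g' : (E dm) → (E dm)), InClass Ω u₀ p u' g' →
      ∫ y in Ω, ‖g y‖ ^ p ≤ ∫ y in Ω, ‖g' y‖ ^ p

/-- `u` is `∞`-harmonic with data `u₀`: a uniform limit of minimisers `U j` of `E_{q j}` in
`C_{q j}(u₀)` for some sequence of exponents `q j > dm` tending to infinity. -/
def IsInftyHarmonic (Ω : Set (E dm)) (u₀ u : C(closure Ω, S1)) : Prop :=
  ∃ (q : ℕ → ℝ) (U : ℕ → C(closure Ω, S1)), Tendsto q atTop atTop ∧
    (∀ j, (dm : ℝ) < q j ∧ IsMinimizer Ω u₀ (q j) (U j)) ∧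
    TendstoUniformly (fun j x => U j x) u atTop

end Pool.Agent.Y274.IH
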