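import Pool.Agent.Y274.IH.Fin
set_option autoImplicit false
set_option linter.unusedSectionVars false
set_option linter.unusedVariables false
open MeasureTheory Metric Set Filter Topology Function
open scoped InnerProductSpace

namespace Pool.Agent.Y274.IH

variable {dm : ℕ}

variable {Ω : Set (E dm)} {u₀ v₀ u v : C(closure Ω, S1)}

theorem le_zero (hdm : 1 ≤ dm) (hΩ : IsOpen Ω) (hb : Bornology.IsBounded Ω) (hu : IsInftyHarmonic Ω u₀ u)
    (hv : IsInftyHarmonic Ω v₀ v) {w : closure Ω → ℝ} {c : S1} (hwc : Continuous w)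
    (hwl : ∀ x, ((w x : ℝ) : S1) = u x - v x + c)
    (hw0 : ∀ x : closure Ω, (x : (E dm)) ∈ frontier Ω → w x ≤ 0) (x₀ : closure Ω) : w x₀ ≤ 0 := by
  classical
  by_contra hcon
  push Not at hcon
  have hΩc : IsCompact (closure Ω) := hb.isCompact_closure
  set W : (E dm) → ℝ := fun y => if h : y ∈ closure Ω then w ⟨y, h⟩ else 0 with hW
  have hWe : ∀ (y : (E dm)) (h : y ∈ closure Ω), W y = w ⟨y, h⟩ := fun y h => dif_pos h
  have hWc : ContinuousOn W (closure Ω) := by
    rw [continuousOn_iff_continuous_domRestrict]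
    have : (closure Ω).domRestrict W = w := by
      ext y
      exact hWe y y.2
    rw [this]
    exact hwc
  obtain ⟨xM, hxM, hxMm⟩ := hΩc.exists_isMaxOn ⟨x₀, x₀.2⟩ hWc
  set M := W xM with hM
  have hMle : ∀ y ∈ closure Ω, W y ≤ M := fun y hy => hxMm hy
  have hM0 : 0 < M := by
    have := hMle x₀ x₀.2
    rw [hWe _ x₀.2] at this
    linarith
  set η := min (M / 8) (1 / 16) with hη
  have hη0 : 0 < η := lt_min (by linarith) (by norm_num)
  have hηM : η ≤ M / 8 := min_le_left _ _
  have hη1 : η ≤ 1 / 16 := min_le_right _ _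
  -- uniform continuity
  have hunif : ∃ ρ : ℝ, 0 < ρ ∧ ∀ x ∈ closure Ω, ∀ y ∈ closure Ω, dist y x < ρ →
      ‖ex u y - ex u x‖ < η ∧ ‖ex v y - ex v x‖ < η ∧ |W y - W x| < η := by
    have h1 := Metric.uniformContinuousOn_iff.1
      (hΩc.uniformContinuousOn_of_continuous (ex_cont u)) η hη0
    have h2 := Metric.uniformContinuousOn_iff.1
      (hΩc.uniformContinuousOn_of_continuous (ex_cont v)) η hη0
    have h3 := Metric.uniformContinuousOn_iff.1
      (hΩc.uniformContinuousOn_of_continuous hWc) η hη0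
    obtain ⟨r1, a1, b1⟩ := h1
    obtain ⟨r2, a2, b2⟩ := h2
    obtain ⟨r3, a3, b3⟩ := h3
    refine ⟨min r1 (min r2 r3), lt_min a1 (lt_min a2 a3), fun x hx y hy hxy => ⟨?_, ?_, ?_⟩⟩
    · have := b1 y hy x hx (hxy.trans_le (min_le_left _ _))
      rwa [dist_eq_norm] at this
    · have := b2 y hy x hx (hxy.trans_le ((min_le_right _ _).trans (min_le_left _ _)))
      rwa [dist_eq_norm] at this
    · have := b3 y hy x hx (hxy.trans_le ((min_le_right _ _).trans (min_le_right _ _)))
      rwa [Real.dist_eq] at this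
  obtain ⟨ρ, hρ0, hρ⟩ := hunif
  set K : Set (E dm) := closure Ω ∩ W ⁻¹' (Ici (M / 2)) with hK
  have hKc : IsCompact K := hΩc.of_isClosed_subset
    (hWc.preimage_isClosed_of_isClosed isClosed_closure isClosed_Ici) Set.inter_subset_left
  have hball : ∀ x ∈ K, ball x ρ ⊆ Ω := by
    intro x hx
    have hxW : M / 2 ≤ W x := hx.2
    have hfr : ∀ y ∈ frontier Ω, W y ≤ 0 := fun y hy => by
      have hy' : y ∈ closure Ω := frontier_subset_closure hy
      rw [hWe y hy']; exact hw0 _ hy
    have hxΩ : x ∈ Ω := by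
      by_contra h
      have : x ∈ frontier Ω := by rw [hΩ.frontier_eq]; exact ⟨hx.1, h⟩
      linarith [hfr x this]
    refine ((convex_ball x ρ).isPreconnected).subset_of_closure_inter_subset hΩ
      ⟨x, mem_ball_self hρ0, hxΩ⟩ ?_
    rintro y ⟨hy1, hy2⟩
    by_contra h
    have hyf : y ∈ frontier Ω := by rw [hΩ.frontier_eq]; exact ⟨hy1, h⟩
    have := (hρ x hx.1 y hy1 hy2).2.2
    have h9 := hfr y hyf
    have := (abs_lt.1 this).1
    linarith
  set ε := ρ / 4 with hε
  have hε0 : 0 < ε := by positivity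
  have h2ε : 2 * ε < ρ := by rw [hε]; linarith
  have hin : ∀ x ∈ K, ∀ y, dist y x < ρ → y ∈ closure Ω := fun x hx y hy =>
    subset_closure (hball x hx hy)
  have hcont2 : ∀ (a : C(closure Ω, S1)) (_ : ∀ x ∈ closure Ω, ∀ y ∈ closure Ω, dist y x < ρ →
      ‖ex a y - ex a x‖ < η), ContinuousOn (fun p : (E dm) × (E dm) => DD a p.1 p.2)
        {p | p.1 ∈ closure Ω ∧ p.2 ∈ closure Ω ∧ dist p.2 p.1 < ρ} := by
    intro a ha p hp
    obtain ⟨h1, h2, h3⟩ := hp
    have h4 := ha _ h1 _ h2 h3
    have h5 : ContinuousOn (fun p : (E dm) × (E dm) => ex a p.2 - ex a p.1)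
        {p | p.1 ∈ closure Ω ∧ p.2 ∈ closure Ω ∧ dist p.2 p.1 < ρ} :=
      ((ex_cont a).comp continuous_snd.continuousOn (fun z hz => hz.2.1)).sub
        ((ex_cont a).comp continuous_fst.continuousOn (fun z hz => hz.1))
    exact ContinuousAt.comp_continuousWithinAt (g := sm)
      (f := fun p : (E dm) × (E dm) => ex a p.2 - ex a p.1) (sm_cont (by linarith)) (h5 p ⟨h1, h2, h3⟩)
  have hU := hcont2 u (fun x hx y hy h => (hρ x hx y hy h).1)
  have hV := hcont2 v (fun x hx y hy h => (hρ x hx y hy h).2.1)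
  have hco : ∀ (a : C(closure Ω, S1)) (_ : ∀ x ∈ closure Ω, ∀ y ∈ closure Ω, dist y x < ρ →
      ‖ex a y - ex a x‖ < η), ∀ x ∈ K, ∀ y ∈ closedBall x ε, ∀ z ∈ closedBall y ε,
      DD a x z = DD a x y + DD a y z := by
    intro a ha x hx y hy z hz
    rw [mem_closedBall] at hy hz
    have hyc := hin x hx y (by linarith)
    have hzc := hin x hx z (by linarith [dist_triangle z y x])
    have h1 := ha x hx.1 y hyc (by linarith)
    have h2 := ha y hyc z hzc (by linarith)
    have h3 : ex a z - ex a x = (ex a y - ex a x) + (ex a z - ex a y) := by abel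
    unfold DD
    rw [h3]
    exact sm_add (by linarith)
  have hH : Data (DD u) (DD v) W K ε M η := by
    refine ⟨hKc, hε0, hη0.le, ?_, ?_, ?_, hWc.mono Set.inter_subset_left, ?_, ?_,
      hco u (fun x hx y hy h => (hρ x hx y hy h).1), hco v (fun x hx y hy h => (hρ x hx y hy h).2.1),
      ?_, ?_, ?_, fun x hx => hMle x hx.1, ⟨xM, ⟨hxM, ?_⟩, rfl⟩, ?_, ?_⟩
    · refine hU.mono ?_
      rintro ⟨x, y⟩ ⟨hx, hy⟩
      simp only [mem_closedBall] at hx hy
      exact ⟨hx.1, hin x hx y (by linarith), by linarith⟩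
    · refine hV.mono ?_
      rintro ⟨x, y⟩ ⟨hx, hy⟩
      simp only [mem_closedBall] at hx hy
      exact ⟨hx.1, hin x hx y (by linarith), by linarith⟩
    · intro x hx
      have := hU.comp (f := fun y : (E dm) => (x, y)) (s := closedBall x (2 * ε)) (by fun_prop)
        (fun y hy => by
          rw [mem_closedBall] at hy
          exact ⟨hx.1, hin x hx y (by linarith), by show dist y x < ρ; linarith⟩)
      exact this
    · intro x hx; unfold DD; rw [sub_self, sm_zero]
    · intro x hx; unfold DD; rw [sub_self, sm_zero]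
    · intro x hx y hy
      rw [mem_closedBall] at hy
      have hyc := hin x hx y (by linarith)
      obtain ⟨h1, h2, h3⟩ := hρ x hx.1 y hyc (by linarith)
      rw [norm_eq_sm] at h1 h2
      have h4 : ((W y - W x : ℝ) : S1) = ((DD u x y - DD v x y : ℝ) : S1) := by
        unfold DD
        rw [AddCircle.coe_sub, AddCircle.coe_sub, sm_coe, sm_coe, hWe y hyc, hWe x hx.1, hwl, hwl,
          ex_eq u hyc, ex_eq u hx.1, ex_eq v hyc, ex_eq v hx.1]
        abel
      have h5 : |W y - W x| < 1 / 2 := by linarith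
      have h6 : |DD u x y - DD v x y| < 1 / 2 := by
        have := abs_sub (DD u x y) (DD v x y)
        unfold DD at *
        linarith
      rw [← sm_of_real h5, ← sm_of_real h6, h4]
    · intro x hx m hm y hy
      exact slope hΩ hb hu (by linarith) h2ε (hball x hx) (fun z hz => by
        have := (hρ x hx.1 z (hin x hx z hz) hz).1
        linarith) hm y hy
    · intro x hx m hm y hy
      exact slope_neg hΩ hb hv (by linarith) h2ε (hball x hx) (fun z hz => by
        have := (hρ x hx.1 z (hin x hx z hz) hz).2.1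
        linarith) hm y hy
    · show M / 2 ≤ W xM
      linarith
    · intro x hx y hy
      rw [mem_closedBall] at hy
      have hyc := hin x hx y (by linarith)
      obtain ⟨h1, h2, h3⟩ := hρ x hx.1 y hyc (by linarith)
      rw [norm_eq_sm] at h1 h2
      exact ⟨h1.le, h2.le⟩
    · intro x hx hxw y hy
      rw [mem_closedBall] at hy
      have hyc := hin x hx y (by linarith)
      obtain ⟨h1, h2, h3⟩ := hρ x hx.1 y hyc (by linarith)
      refine ⟨hyc, ?_⟩
      show M / 2 ≤ W y
      have := (abs_lt.1 h3).1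
      linarith
  have : Nontrivial (E dm) := by
    apply Module.nontrivial_of_finrank_pos (R := ℝ)
    rw [finrank_euclideanSpace_fin]
    exact hdm
  exact hH.false

/-- **Comparison principle** for infinity-harmonic circle valued maps. -/
theorem comparison (hdm : 1 ≤ dm) (hΩ : IsOpen Ω) (hb : Bornology.IsBounded Ω)
    (hu : IsInftyHarmonic Ω u₀ u) (hv : IsInftyHarmonic Ω v₀ v) {w : closure Ω → ℝ}
    (hwc : Continuous w) (hwl : ∀ x, ((w x : ℝ) : S1) = u x - v x) {b : ℝ}
    (hw : ∀ x : closure Ω, (x : (E dm)) ∈ frontier Ω → w x ≤ b) (x : closure Ω) : w x ≤ b := by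
  have h1 := le_zero hdm hΩ hb hu hv (w := fun x => w x - b) (c := -((b : ℝ) : S1))
    (hwc.sub continuous_const) (by
      intro x
      rw [AddCircle.coe_sub, hwl]; abel) (by
      intro x hx
      linarith [hw x hx]) x
  linarith

/-- the difference of infinity-harmonic maps with homotopic data -/
theorem difference (hdm : 1 ≤ dm) (hΩ : IsOpen Ω) (hb : Bornology.IsBounded Ω)
    (hu : IsInftyHarmonic Ω u₀ u) (hv : IsInftyHarmonic Ω v₀ v) {h : closure Ω → ℝ}
    (hc : Continuous h) (hh : ∀ x, ((h x : ℝ) : S1) = u₀ x - v₀ x) :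
    ∃ w : closure Ω → ℝ, Continuous w ∧ (∀ x, ((w x : ℝ) : S1) = u x - v x) ∧
      (∀ x : closure Ω, (x : (E dm)) ∈ frontier Ω → w x = h x) ∧
      ∀ a b : ℝ, (∀ x : closure Ω, (x : (E dm)) ∈ frontier Ω → a ≤ h x ∧ h x ≤ b) →
        ∀ x, a ≤ w x ∧ w x ≤ b := by
  obtain ⟨w₁, a1, a2, a3⟩ := lift_infty hb hu
  obtain ⟨w₂, b1, b2, b3⟩ := lift_infty hb hv
  have hwc : Continuous fun x => h x - w₁ x + w₂ x := (hc.sub a1).add b1
  have hwl : ∀ x, (((h x - w₁ x + w₂ x : ℝ)) : S1) = u x - v x := by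
    intro x
    rw [AddCircle.coe_add, AddCircle.coe_sub, hh, a2, b2]; abel
  have hwf : ∀ x : closure Ω, (x : (E dm)) ∈ frontier Ω → h x - w₁ x + w₂ x = h x := by
    intro x hx
    rw [a3 x hx, b3 x hx]; ring
  refine ⟨fun x => h x - w₁ x + w₂ x, hwc, hwl, hwf, fun a b hab x => ⟨?_, ?_⟩⟩
  · have h1 := comparison hdm hΩ hb hv hu (w := fun x => -(h x - w₁ x + w₂ x)) (b := -a) hwc.neg (by
      intro x
      rw [AddCircle.coe_neg, hwl]; abel) (by
      intro x hx
      have := (hab x hx).1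
      have h2 := hwf x hx
      linarith) x
    linarith
  · exact comparison hdm hΩ hb hu hv (w := fun x => h x - w₁ x + w₂ x) hwc hwl (by
      intro x hx
      have := (hab x hx).2
      have h2 := hwf x hx
      linarith) x

/-- **Uniqueness** of infinity-harmonic circle valued maps on bounded open sets. -/
theorem unique (hdm : 1 ≤ dm) (hΩ : IsOpen Ω) (hb : Bornology.IsBounded Ω)
    (hu : IsInftyHarmonic Ω u₀ u) (hv : IsInftyHarmonic Ω u₀ v) : u = v := by
  obtain ⟨w, -, w2, -, w4⟩ := difference hdm hΩ hb hu hv (h := fun _ => 0) continuous_const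
    (by intro x; simp)
  ext x
  have h1 := w4 0 0 (fun _ _ => ⟨le_rfl, le_rfl⟩) x
  have h2 : w x = 0 := le_antisymm h1.2 h1.1
  have h3 := w2 x
  rw [h2] at h3
  simp only [AddCircle.coe_zero] at h3
  exact sub_eq_zero.1 h3.symm

end Pool.Agent.Y274.IH
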