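import Pool.Agent.Y274.IH.WGrad
set_option autoImplicit false
set_option linter.unusedSectionVars false
set_option linter.unusedVariables false
open MeasureTheory Metric Set Filter Topology Function
open scoped InnerProductSpace

namespace Pool.Agent.Y274.IH

variable {dm : ℕ}

/-- derivative of a power of the distance to `x₀` -/
theorem hasFDerivAt_pow (x₀ : (E dm)) (γ : ℝ) {y : (E dm)} (hy : y ≠ x₀) :
    HasFDerivAt (fun y => ‖y - x₀‖ ^ γ) ((γ * ‖y - x₀‖ ^ (γ - 2)) • innerSL ℝ (y - x₀)) y := by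
  have h0 : 0 < ‖y - x₀‖ := norm_pos_iff.2 (sub_ne_zero.2 hy)
  have h1 : HasFDerivAt (fun y : (E dm) => ‖y - x₀‖ ^ 2)
      (2 • (innerSL ℝ (y - x₀)).comp (ContinuousLinearMap.id ℝ (E dm))) y :=
    ((hasFDerivAt_id y).sub_const x₀).norm_sq
  have h2 : HasDerivAt (fun s : ℝ => s ^ (γ / 2)) (γ / 2 * (‖y - x₀‖ ^ 2) ^ (γ / 2 - 1))
      (‖y - x₀‖ ^ 2) := Real.hasDerivAt_rpow_const (Or.inl (by positivity))
  have h3 := h2.comp_hasFDerivAt y h1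
  have e1 : (fun y : (E dm) => ‖y - x₀‖ ^ γ) = (fun s : ℝ => s ^ (γ / 2)) ∘ fun y : (E dm) => ‖y - x₀‖ ^ 2 := by
    ext z
    simp only [Function.comp]
    rw [← Real.rpow_natCast, ← Real.rpow_mul (norm_nonneg _)]
    congr 1; push_cast; ring
  rw [e1]
  have e3 : (γ * ‖y - x₀‖ ^ (γ - 2)) • innerSL ℝ (y - x₀) =
      (γ / 2 * (‖y - x₀‖ ^ 2) ^ (γ / 2 - 1)) •
        (2 • (innerSL ℝ (y - x₀)).comp (ContinuousLinearMap.id ℝ (E dm))) := by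
    have e4 : (‖y - x₀‖ ^ 2) ^ (γ / 2 - 1) = ‖y - x₀‖ ^ (γ - 2) := by
      rw [← Real.rpow_natCast, ← Real.rpow_mul (norm_nonneg _)]
      congr 1; push_cast; ring
    rw [e4]
    ext e
    simp only [smul_apply, innerSL_apply_apply, smul_eq_mul,
      ContinuousLinearMap.comp_id, nsmul_eq_mul]
    push_cast
    ring
  rw [e3]
  exact h3

theorem contDiffAt_pow (x₀ : (E dm)) (γ : ℝ) {y : (E dm)} (hy : y ≠ x₀) :
    ContDiffAt ℝ Sm (fun y => ‖y - x₀‖ ^ γ) y := by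
  have h0 : ‖y - x₀‖ ≠ 0 := norm_ne_zero_iff.2 (sub_ne_zero.2 hy)
  have h1 : ContDiffAt ℝ Sm (fun y : (E dm) => ‖y - x₀‖) y :=
    (contDiffAt_id.sub contDiffAt_const).norm ℝ (sub_ne_zero.2 hy)
  exact h1.rpow_const_of_ne h0

/-- product of a cut-off with a function smooth on the support -/
theorem contDiff_cut {χ ζ : (E dm) → ℝ} {O : Set (E dm)} (hχ : ContDiff ℝ Sm χ) (hs : tsupport χ ⊆ O)
    (hζ : ∀ y ∈ O, ContDiffAt ℝ Sm ζ y) : ContDiff ℝ Sm (fun y => χ y * ζ y) := by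
  rw [contDiff_iff_contDiffAt]
  intro y
  by_cases hy : y ∈ tsupport χ
  · exact hχ.contDiffAt.mul (hζ y (hs hy))
  · have h1 : (fun y => χ y * ζ y) =ᶠ[𝓝 y] fun _ => 0 := by
      have h2 : χ =ᶠ[𝓝 y] 0 := notMem_tsupport_iff_eventuallyEq.1 hy
      filter_upwards [h2] with z hz
      rw [hz]; simp
    exact contDiffAt_const.congr_of_eventuallyEq h1

theorem continuous_cut {χ ζ : (E dm) → ℝ} {O : Set (E dm)} (hO : IsOpen O) (hχ : Continuous χ)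
    (hs : tsupport χ ⊆ O) (hζ : ContinuousOn ζ O) : Continuous (fun y => χ y * ζ y) := by
  rw [continuous_iff_continuousAt]
  intro y
  by_cases hy : y ∈ tsupport χ
  · exact hχ.continuousAt.mul (hζ.continuousAt (hO.mem_nhds (hs hy)))
  · have h1 : (fun y => χ y * ζ y) =ᶠ[𝓝 y] fun _ => 0 := by
      have h2 : χ =ᶠ[𝓝 y] 0 := notMem_tsupport_iff_eventuallyEq.1 hy
      filter_upwards [h2] with z hz
      rw [hz]; simp
    exact continuousAt_const.congr h1.symm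

/-- radial cut-off functions -/
theorem exists_chi (x₀ : (E dm)) {r₀ r₁ r₂ r : ℝ} (h0 : 0 < r₀) (h1 : r₀ < r₁) (h2 : r₁ ≤ r₂)
    (h3 : r₂ < r) : ∃ χ : (E dm) → ℝ, ContDiff ℝ Sm χ ∧ HasCompactSupport χ ∧
      (∀ y, 0 ≤ χ y ∧ χ y ≤ 1) ∧ (∀ y, r₁ ≤ ‖y - x₀‖ → ‖y - x₀‖ ≤ r₂ → χ =ᶠ[𝓝 y] 1) ∧
      tsupport χ ⊆ {y | r₀ < ‖y - x₀‖ ∧ ‖y - x₀‖ < r} := by
  obtain ⟨δ, hδ0, hδ1, hδ2⟩ : ∃ δ : ℝ, 0 < δ ∧ r₀ ^ 2 < r₁ ^ 2 - 2 * δ ∧ r₂ ^ 2 + 2 * δ < r ^ 2 := by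
    have e1 : r₀ ^ 2 < r₁ ^ 2 := pow_lt_pow_left₀ h1 h0.le (by norm_num)
    have e2 : r₂ ^ 2 < r ^ 2 := pow_lt_pow_left₀ h3 (by linarith) (by norm_num)
    refine ⟨min (r₁ ^ 2 - r₀ ^ 2) (r ^ 2 - r₂ ^ 2) / 3, ?_, ?_, ?_⟩
    · have : 0 < min (r₁ ^ 2 - r₀ ^ 2) (r ^ 2 - r₂ ^ 2) := lt_min (by linarith) (by linarith)
      linarith
    · have h : 0 < min (r₁ ^ 2 - r₀ ^ 2) (r ^ 2 - r₂ ^ 2) := lt_min (by linarith) (by linarith)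
      have := min_le_left (r₁ ^ 2 - r₀ ^ 2) (r ^ 2 - r₂ ^ 2)
      linarith
    · have h : 0 < min (r₁ ^ 2 - r₀ ^ 2) (r ^ 2 - r₂ ^ 2) := lt_min (by linarith) (by linarith)
      have := min_le_right (r₁ ^ 2 - r₀ ^ 2) (r ^ 2 - r₂ ^ 2)
      linarith
  have hr12 : r₁ ^ 2 ≤ r₂ ^ 2 := pow_le_pow_left₀ (by linarith) h2 2
  let c : ℝ := (r₁ ^ 2 + r₂ ^ 2) / 2
  let β : ContDiffBump c := ⟨(r₂ ^ 2 - r₁ ^ 2) / 2 + δ, (r₂ ^ 2 - r₁ ^ 2) / 2 + 3 / 2 * δ,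
    by linarith, by linarith⟩
  have hsm : ContDiff ℝ Sm (fun y : (E dm) => ‖y - x₀‖ ^ 2) :=
    (contDiff_id.sub contDiff_const).norm_sq ℝ
  have hβ : ContDiff ℝ Sm β := β.contDiff
  have hχ : ContDiff ℝ Sm (fun y : (E dm) => β (‖y - x₀‖ ^ 2)) := hβ.comp hsm
  have hclosed : tsupport (fun y : (E dm) => β (‖y - x₀‖ ^ 2)) ⊆
      {y | r₁ ^ 2 - 3 / 2 * δ ≤ ‖y - x₀‖ ^ 2 ∧ ‖y - x₀‖ ^ 2 ≤ r₂ ^ 2 + 3 / 2 * δ} := by
    apply closure_minimal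
    · intro y hy
      have h4 : ‖y - x₀‖ ^ 2 ∈ support β := hy
      rw [β.support_eq, mem_ball, Real.dist_eq, abs_lt] at h4
      obtain ⟨h5, h6⟩ := h4
      have h5' : -((r₂ ^ 2 - r₁ ^ 2) / 2 + 3 / 2 * δ) < ‖y - x₀‖ ^ 2 - (r₁ ^ 2 + r₂ ^ 2) / 2 := h5
      have h6' : ‖y - x₀‖ ^ 2 - (r₁ ^ 2 + r₂ ^ 2) / 2 < (r₂ ^ 2 - r₁ ^ 2) / 2 + 3 / 2 * δ := h6
      constructor <;> linarith
    · have hc : Continuous fun y : (E dm) => ‖y - x₀‖ ^ 2 := hsm.continuous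
      exact (isClosed_le continuous_const hc).inter (isClosed_le hc continuous_const)
  have hsub : tsupport (fun y : (E dm) => β (‖y - x₀‖ ^ 2)) ⊆
      {y | r₀ < ‖y - x₀‖ ∧ ‖y - x₀‖ < r} := by
    intro y hy
    obtain ⟨h4, h5⟩ := hclosed hy
    constructor
    · apply lt_of_pow_lt_pow_left₀ 2 (norm_nonneg _); linarith
    · apply lt_of_pow_lt_pow_left₀ 2 (by linarith); linarith
  refine ⟨fun y => β (‖y - x₀‖ ^ 2), hχ, ?_, fun y => ⟨β.nonneg, β.le_one⟩, ?_, hsub⟩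
  · refine HasCompactSupport.of_support_subset_isCompact (isCompact_closedBall x₀ r) ?_
    intro y hy
    have := hsub (subset_tsupport _ hy)
    rw [mem_closedBall, dist_eq_norm]; exact this.2.le
  · intro y hy1 hy2
    have h4 : β =ᶠ[𝓝 (‖y - x₀‖ ^ 2)] 1 := by
      apply β.eventuallyEq_one_of_mem_ball
      rw [mem_ball, Real.dist_eq, abs_lt]
      have h5 : r₁ ^ 2 ≤ ‖y - x₀‖ ^ 2 := pow_le_pow_left₀ (by linarith) hy1 2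
      have h6 : ‖y - x₀‖ ^ 2 ≤ r₂ ^ 2 := pow_le_pow_left₀ (norm_nonneg _) hy2 2
      show -((r₂ ^ 2 - r₁ ^ 2) / 2 + δ) < ‖y - x₀‖ ^ 2 - (r₁ ^ 2 + r₂ ^ 2) / 2 ∧
        ‖y - x₀‖ ^ 2 - (r₁ ^ 2 + r₂ ^ 2) / 2 < (r₂ ^ 2 - r₁ ^ 2) / 2 + δ
      constructor <;> linarith
    exact (hsm.continuous.tendsto y).eventually h4

end Pool.Agent.Y274.IH
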