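import Pool.Agent.Y274.IH.Key
import Pool.Agent.Y274.IH.Circ
set_option autoImplicit false
set_option linter.unusedSectionVars false
set_option linter.unusedVariables false
open MeasureTheory Metric Set Filter Topology Function
open scoped InnerProductSpace

namespace Pool.Agent.Y274.IH

variable {dm : ℕ}

variable {Ω : Set (E dm)} {u₀ u : C(closure Ω, S1)}

open Classical in
/-- extension by `0` of a map on the closure -/
noncomputable def ex (u : C(closure Ω, S1)) (y : (E dm)) : S1 :=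
  if h : y ∈ closure Ω then u ⟨y, h⟩ else 0

theorem ex_eq (u : C(closure Ω, S1)) {y : (E dm)} (h : y ∈ closure Ω) : ex u y = u ⟨y, h⟩ := dif_pos h

theorem ex_cont (u : C(closure Ω, S1)) : ContinuousOn (ex u) (closure Ω) := by
  rw [continuousOn_iff_continuous_domRestrict]
  have : (closure Ω).domRestrict (ex u) = u := by
    ext y
    exact ex_eq u y.2
  rw [this]
  exact u.continuous

/-- the local difference `u(y) - u(x)` -/
noncomputable def DD (u : C(closure Ω, S1)) (x y : (E dm)) : ℝ := sm (ex u y - ex u x)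

theorem slope (hΩ : IsOpen Ω) (hb : Bornology.IsBounded Ω) (hu : IsInftyHarmonic Ω u₀ u)
    {x₀ : (E dm)} {R r : ℝ} (hr : 0 < r) (hrR : r < R) (hball : ball x₀ R ⊆ Ω)
    (hosc : ∀ y ∈ ball x₀ R, ‖ex u y - ex u x₀‖ < 1 / 4) {m : ℝ}
    (hm : ∀ z ∈ closedBall x₀ r, DD u x₀ z ≤ m) :
    ∀ y ∈ closedBall x₀ r, DD u x₀ y ≤ m / r * ‖y - x₀‖ := by
  obtain ⟨q, V, hq, hV, hlim⟩ := hu
  have hR : 0 < R := hr.trans hrR
  have hsubR : closedBall x₀ r ⊆ ball x₀ R := closedBall_subset_ball hrR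
  have hΩc : ball x₀ R ⊆ closure Ω := hball.trans subset_closure
  by_contra hcon
  push Not at hcon
  obtain ⟨y₁, hy₁, hy₁'⟩ := hcon
  have hD0 : DD u x₀ x₀ = 0 := by unfold DD; rw [sub_self, sm_zero]
  have hm0 : 0 ≤ m := by
    have := hm x₀ (mem_closedBall_self hr.le); rwa [hD0] at this
  have hne : y₁ ≠ x₀ := by
    rintro rfl
    rw [hD0] at hy₁'
    simp at hy₁'
  have hd0 : 0 < ‖y₁ - x₀‖ := norm_pos_iff.2 (sub_ne_zero.2 hne)
  set d := ‖y₁ - x₀‖ with hd
  set t := DD u x₀ y₁ with ht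
  have hdr : d ≤ r := by rw [mem_closedBall, dist_eq_norm] at hy₁; exact hy₁
  obtain ⟨b, hb1, hb2⟩ : ∃ b : ℝ, m / r < b ∧ b * d < t := by
    have h1 : m / r < t / d := by rw [lt_div_iff₀ hd0]; exact hy₁'
    refine ⟨(m / r + t / d) / 2, by linarith, ?_⟩
    have h2 : (m / r + t / d) / 2 * d = (m / r * d + t) / 2 := by field_simp
    rw [h2]; linarith
  have hb0 : 0 < b := lt_of_le_of_lt (by positivity) hb1
  have hbr : m < b * r := by rwa [div_lt_iff₀ hr] at hb1
  obtain ⟨η, hη⟩ : ∃ η, η = t - b * d := ⟨_, rfl⟩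
  have hη0 : 0 < η := by linarith
  -- choice of the exponent
  have hγ1 : ∀ᶠ γ : ℝ in 𝓝 1, m < η / 2 + b * r ^ γ := by
    have h1 : ContinuousAt (fun γ : ℝ => η / 2 + b * r ^ γ) 1 :=
      continuousAt_const.add (continuousAt_const.mul (Real.continuousAt_const_rpow hr.ne'))
    apply h1.eventually_const_lt
    simp only [Real.rpow_one]; linarith
  have hγ2 : ∀ᶠ γ : ℝ in 𝓝 1, η / 2 + b * d ^ γ < t := by
    have h1 : ContinuousAt (fun γ : ℝ => η / 2 + b * d ^ γ) 1 :=
      continuousAt_const.add (continuousAt_const.mul (Real.continuousAt_const_rpow hd0.ne'))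
    apply h1.eventually_lt_const
    simp only [Real.rpow_one]; linarith
  have hγ3 : ∀ᶠ γ : ℝ in 𝓝[<] 1, m < η / 2 + b * r ^ γ ∧ η / 2 + b * d ^ γ < t ∧ 0 < γ ∧ γ < 1 := by
    filter_upwards [nhdsWithin_le_nhds hγ1, nhdsWithin_le_nhds hγ2,
      nhdsWithin_le_nhds (lt_mem_nhds (show (0:ℝ) < 1 by norm_num)), self_mem_nhdsWithin]
      with γ a1 a2 a3 a4
    exact ⟨a1, a2, a3, a4⟩
  obtain ⟨γ, g1, g2, g3, g4⟩ := hγ3.exists
  -- the small ball
  have hx₀ : x₀ ∈ ball x₀ R := mem_ball_self hR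
  have hcD : ContinuousOn (DD u x₀) (ball x₀ R) := by
    intro y hy
    have h1 : ContinuousWithinAt (fun y => ex u y - ex u x₀) (ball x₀ R) y :=
      (((ex_cont u).mono hΩc) y hy).sub continuousWithinAt_const
    exact (sm_cont (by linarith [hosc y hy])).comp_continuousWithinAt h1
  obtain ⟨r₀, hr00, hr0r, hr0⟩ : ∃ r₀ : ℝ, 0 < r₀ ∧ r₀ < r ∧
      ∀ y, ‖y - x₀‖ ≤ r₀ → DD u x₀ y < η / 4 := by
    have h1 : ContinuousAt (DD u x₀) x₀ := hcD.continuousAt (isOpen_ball.mem_nhds hx₀)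
    have h2 : ∀ᶠ y in 𝓝 x₀, DD u x₀ y < η / 4 := by
      apply h1.eventually_lt_const
      rw [hD0]; linarith
    obtain ⟨s, hs, hs2⟩ := Metric.eventually_nhds_iff.1 h2
    refine ⟨min s r / 2, by have := lt_min hs hr; linarith, ?_, ?_⟩
    · have := min_le_right s r
      have := lt_min hs hr
      linarith
    · intro y hy
      apply hs2
      rw [dist_eq_norm]
      have := min_le_left s r
      have := lt_min hs hr
      linarith
  -- closeness
  obtain ⟨δ, hδ0, hδ1, hδ2, hδ3, hδ4⟩ : ∃ δ : ℝ, 0 < δ ∧ δ < 1 / 8 ∧ δ ≤ η / 4 ∧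
      δ < η / 2 + b * r ^ γ - m ∧ δ < t - (η / 2 + b * d ^ γ) := by
    have h1 : 0 < min (min (1 / 8) (η / 4)) (min (η / 2 + b * r ^ γ - m) (t - (η / 2 + b * d ^ γ))) :=
      lt_min (lt_min (by norm_num) (by linarith)) (lt_min (by linarith) (by linarith))
    set M := min (min (1 / 8) (η / 4)) (min (η / 2 + b * r ^ γ - m) (t - (η / 2 + b * d ^ γ)))
    have h2 : M ≤ 1 / 8 := (min_le_left _ _).trans (min_le_left _ _)
    have h3 : M ≤ η / 4 := (min_le_left _ _).trans (min_le_right _ _)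
    have h4 : M ≤ η / 2 + b * r ^ γ - m := (min_le_right _ _).trans (min_le_left _ _)
    have h5 : M ≤ t - (η / 2 + b * d ^ γ) := (min_le_right _ _).trans (min_le_right _ _)
    exact ⟨M / 2, by linarith, by linarith, by linarith, by linarith, by linarith⟩
  have hex : ∃ j, (∀ x : closure Ω, ‖V j x - u x‖ < δ) ∧ (dm : ℝ) - 1 < (1 - γ) * (q j - 1) ∧ 2 < q j := by
    have h1 := Metric.tendstoUniformly_iff.1 hlim δ hδ0
    have h2 : Tendsto (fun j => (1 - γ) * (q j - 1)) atTop atTop :=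
      (tendsto_atTop_add_const_right _ (-1) hq).const_mul_atTop (by linarith)
    obtain ⟨j, hj1, hj2, hj3⟩ := (h1.and ((h2.eventually_gt_atTop ((dm : ℝ) - 1)).and
      (hq.eventually_gt_atTop 2))).exists
    refine ⟨j, fun x => ?_, hj2, hj3⟩
    have := hj1 x
    rwa [dist_eq_norm, norm_sub_rev] at this
  obtain ⟨j, hj1, hj2, hqj⟩ := hex
  obtain ⟨-, hminj⟩ := hV j
  set W : (E dm) → ℝ := fun y => sm (ex (V j) y - ex u x₀) with hW
  have hWadd : ∀ y ∈ ball x₀ R, W y = DD u x₀ y + sm (ex (V j) y - ex u y) ∧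
      |sm (ex (V j) y - ex u y)| < δ ∧ ‖ex (V j) y - ex u x₀‖ < 1 / 2 := by
    intro y hy
    have hyc := hΩc hy
    have h1 : ‖ex (V j) y - ex u y‖ < δ := by
      rw [ex_eq _ hyc, ex_eq _ hyc]; exact hj1 _
    have h2 := hosc y hy
    have h3 : ex (V j) y - ex u x₀ = (ex u y - ex u x₀) + (ex (V j) y - ex u y) := by abel
    refine ⟨?_, ?_, ?_⟩
    · simp only [hW, DD]
      rw [h3]
      exact sm_add (by linarith)
    · rw [← norm_eq_sm]; exact h1
    · rw [h3]
      exact (norm_add_le _ _).trans_lt (by linarith)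
  have hWc : ContinuousOn W (ball x₀ R) := by
    intro y hy
    have h1 : ContinuousWithinAt (fun y => ex (V j) y - ex u x₀) (ball x₀ R) y :=
      (((ex_cont (V j)).mono hΩc) y hy).sub continuousWithinAt_const
    exact ContinuousAt.comp_continuousWithinAt (g := sm) (f := fun y => ex (V j) y - ex u x₀)
      (sm_cont (hWadd y hy).2.2) h1
  have hres := key hΩ hb hqj hminj hr00 hr0r hrR hball
    (U := fun y => sm (ex u x₀) + W y) (continuousOn_const.add hWc)
    (by
      intro y hy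
      rw [AddCircle.coe_add, sm_coe]
      simp only [hW]
      rw [sm_coe, add_sub_cancel, ex_eq _ (hΩc hy)])
    (A := sm (ex u x₀) + η / 2) hb0 g3 hj2
    (by
      intro y hy
      have hyR : y ∈ ball x₀ R := by rw [mem_ball, dist_eq_norm]; linarith
      obtain ⟨e1, e2, -⟩ := hWadd y hyR
      have e3 := (abs_lt.1 e2).2
      have e4 := hr0 y hy
      have e5 : 0 ≤ b * ‖y - x₀‖ ^ γ := by positivity
      rw [e1]
      linarith)
    (by
      intro y hy
      have hyR : y ∈ ball x₀ R := by rw [mem_ball, dist_eq_norm]; linarith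
      obtain ⟨e1, e2, -⟩ := hWadd y hyR
      have e3 := (abs_lt.1 e2).2
      have e4 := hm y (by rw [mem_closedBall, dist_eq_norm]; exact hy.le)
      rw [e1, hy]
      linarith)
    y₁ hdr
  obtain ⟨e1, e2, -⟩ := hWadd y₁ (hsubR hy₁)
  have e3 := (abs_lt.1 e2).1
  rw [e1] at hres
  linarith

end Pool.Agent.Y274.IH
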