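import Pool.Agent.Y274.IH.Cut
set_option autoImplicit false
set_option linter.unusedSectionVars false
set_option linter.unusedVariables false
open MeasureTheory Metric Set Filter Topology Function
open scoped InnerProductSpace

namespace Pool.Agent.Y274.IH

variable {dm : ℕ}

theorem T_deriv_nonpos {t : ℝ} (ht : t ≤ 0) : deriv expNegInvGlue t = 0 := by
  apply IsLocalMin.deriv_eq_zero
  refine Filter.Eventually.of_forall fun s => ?_
  rw [expNegInvGlue.zero_of_nonpos ht]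
  exact expNegInvGlue.nonneg s

theorem T_deriv_pos {t : ℝ} (ht : 0 < t) :
    deriv expNegInvGlue t = Real.exp (-t⁻¹) * (t⁻¹) ^ 2 := by
  have h1 : expNegInvGlue =ᶠ[𝓝 t] fun x => Real.exp (-x⁻¹) := by
    filter_upwards [lt_mem_nhds ht] with x hx
    rw [expNegInvGlue, if_neg (not_le.2 hx)]
  rw [h1.deriv_eq]
  have h2 : HasDerivAt (fun x : ℝ => -x⁻¹) ((t ^ 2)⁻¹) t := by
    have := (hasDerivAt_inv ht.ne').neg
    rw [neg_neg] at this
    exact this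
  rw [h2.exp.deriv]
  rw [inv_pow]

theorem T_deriv_mem (t : ℝ) : 0 ≤ deriv expNegInvGlue t ∧ deriv expNegInvGlue t ≤ 1 := by
  rcases le_or_gt t 0 with ht | ht
  · rw [T_deriv_nonpos ht]; norm_num
  · rw [T_deriv_pos ht]
    have hs : 0 < t⁻¹ := inv_pos.2 ht
    set s := t⁻¹ with hsd
    refine ⟨by positivity, ?_⟩
    have h1 : 1 + s / 4 ≤ Real.exp (s / 4) := by
      have := Real.add_one_le_exp (s / 4); linarith
    have h2 : (1 + s / 4) ^ 4 ≤ Real.exp (s / 4) ^ 4 := pow_le_pow_left₀ (by positivity) h1 4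
    have h3 : Real.exp (s / 4) ^ 4 = Real.exp s := by
      rw [← Real.exp_nat_mul]; congr 1; push_cast; ring
    have h4 : s ^ 2 ≤ (1 + s / 4) ^ 4 := by
      have h5 : s ≤ (1 + s / 4) ^ 2 := by nlinarith [sq_nonneg (1 - s / 4)]
      calc s ^ 2 ≤ ((1 + s / 4) ^ 2) ^ 2 := pow_le_pow_left₀ hs.le h5 2
        _ = (1 + s / 4) ^ 4 := by ring
    rw [Real.exp_neg, inv_mul_le_iff₀ (Real.exp_pos s)]
    rw [h3] at h2
    linarith

theorem T_smooth : ContDiff ℝ Sm expNegInvGlue := expNegInvGlue.contDiff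

/-- the pointwise convexity inequality -/
theorem conv_ineq {p : ℝ} (hp : 2 < p) (a c : (E dm)) {τ : ℝ} (h0 : 0 ≤ τ) (h1 : τ ≤ 1) :
    ‖a - τ • (a - c)‖ ^ p ≤ ‖a‖ ^ p - p * (τ * (‖c‖ ^ (p - 2) * ⟪c, a - c⟫_ℝ)) := by
  have e1 : a - τ • (a - c) = (1 - τ) • a + τ • c := by module
  have h2 : ‖a - τ • (a - c)‖ ≤ (1 - τ) * ‖a‖ + τ * ‖c‖ := by
    rw [e1]
    refine (norm_add_le _ _).trans ?_
    rw [norm_smul, norm_smul, Real.norm_of_nonneg h0, Real.norm_of_nonneg (by linarith)]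
  have h3 : ‖a - τ • (a - c)‖ ^ p ≤ (1 - τ) * ‖a‖ ^ p + τ * ‖c‖ ^ p := by
    refine (Real.rpow_le_rpow (norm_nonneg _) h2 (by linarith)).trans ?_
    have := (convexOn_rpow (by linarith : 1 ≤ p)).2 (norm_nonneg a : (0:ℝ) ≤ ‖a‖)
      (norm_nonneg c : (0:ℝ) ≤ ‖c‖) (by linarith : 0 ≤ 1 - τ) h0 (by ring)
    simpa [smul_eq_mul] using this
  -- Bernoulli
  have h4 : ‖c‖ ^ p + p * (‖c‖ ^ (p - 2) * ⟪c, a - c⟫_ℝ) ≤ ‖a‖ ^ p := by
    rcases (norm_nonneg c).eq_or_lt with hc | hc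
    · have hc0 : c = 0 := norm_eq_zero.1 hc.symm
      subst hc0
      simp only [norm_zero, inner_zero_left, mul_zero, add_zero]
      rw [Real.zero_rpow (by linarith)]
      positivity
    · have h5 : ⟪c, a - c⟫_ℝ ≤ ‖c‖ * (‖a‖ - ‖c‖) := by
        rw [inner_sub_right, real_inner_self_eq_norm_sq]
        have := real_inner_le_norm c a
        nlinarith
      have h6 : ‖c‖ ^ (p - 2) * ⟪c, a - c⟫_ℝ ≤ ‖c‖ ^ (p - 2) * (‖c‖ * (‖a‖ - ‖c‖)) :=
        mul_le_mul_of_nonneg_left h5 (by positivity)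
      have h7 : 1 + p * (‖a‖ / ‖c‖ - 1) ≤ (‖a‖ / ‖c‖) ^ p := by
        have := one_add_mul_self_le_rpow_one_add (s := ‖a‖ / ‖c‖ - 1) (p := p)
          (by linarith [div_nonneg (norm_nonneg a) (norm_nonneg c)]) (by linarith)
        simpa using this
      rw [Real.div_rpow (norm_nonneg _) (norm_nonneg _), le_div_iff₀ (by positivity)] at h7
      have h8 : ‖c‖ ^ p = ‖c‖ ^ (p - 2) * (‖c‖ * ‖c‖) := by
        have : ‖c‖ ^ p = ‖c‖ ^ (p - 2) * ‖c‖ ^ (2 : ℝ) := by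
          rw [← Real.rpow_add hc]; congr 1; ring
        rw [this, Real.rpow_two]; ring
      have h9 : (1 + p * (‖a‖ / ‖c‖ - 1)) * ‖c‖ ^ p =
          ‖c‖ ^ p + p * (‖c‖ ^ (p - 2) * (‖c‖ * (‖a‖ - ‖c‖))) := by
        rw [h8]; field_simp
      rw [h9] at h7
      have h10 := mul_le_mul_of_nonneg_left h6 (by linarith : (0:ℝ) ≤ p)
      linarith
  nlinarith [mul_le_mul_of_nonneg_left h4 h0]

end Pool.Agent.Y274.IH
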